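import Pool.Agent.W2helper43.BD.Stm

/-!
Piece CONJ of project BD (helper43): sums of orthogonal conjugates.
-/

set_option autoImplicit false

namespace Pool.Agent.W2helper49.BD

open Pool.Agent.W2helper43.BD

section conj

variable {k Γ : Type} [CommRing k] [Group Γ]

lemma single_inv (γ : Γ) :
    (MonoidAlgebra.single γ 1 * MonoidAlgebra.single γ⁻¹ 1 : MonoidAlgebra k Γ) = 1 := by
  rw [MonoidAlgebra.single_mul_single, mul_inv_cancel, mul_one]
  rfl

lemma inv_single (γ : Γ) :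
    (MonoidAlgebra.single γ⁻¹ 1 * MonoidAlgebra.single γ 1 : MonoidAlgebra k Γ) = 1 := by
  rw [MonoidAlgebra.single_mul_single, inv_mul_cancel, mul_one]
  rfl

lemma conj_mul (γ : Γ) (r r' : MonoidAlgebra k Γ) : conj γ (r * r') = conj γ r * conj γ r' := by
  unfold conj
  calc MonoidAlgebra.single γ 1 * (r * r') * MonoidAlgebra.single γ⁻¹ 1
      = MonoidAlgebra.single γ 1 * r * 1 * r' * MonoidAlgebra.single γ⁻¹ 1 := by
        rw [mul_one, mul_assoc (MonoidAlgebra.single γ 1) r r']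
    _ = MonoidAlgebra.single γ 1 * r *
        (MonoidAlgebra.single γ⁻¹ 1 * MonoidAlgebra.single γ 1) * r' *
        MonoidAlgebra.single γ⁻¹ 1 := by rw [inv_single]
    _ = _ := by simp only [mul_assoc]

lemma conj_conj (γ δ : Γ) (r : MonoidAlgebra k Γ) : conj γ (conj δ r) = conj (γ * δ) r := by
  unfold conj
  have h1 : (MonoidAlgebra.single (γ * δ) 1 : MonoidAlgebra k Γ) =
      MonoidAlgebra.single γ 1 * MonoidAlgebra.single δ 1 := by
    rw [MonoidAlgebra.single_mul_single, mul_one]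
  have h2 : (MonoidAlgebra.single (γ * δ)⁻¹ 1 : MonoidAlgebra k Γ) =
      MonoidAlgebra.single δ⁻¹ 1 * MonoidAlgebra.single γ⁻¹ 1 := by
    rw [MonoidAlgebra.single_mul_single, mul_one, mul_inv_rev]
  rw [h1, h2]
  simp only [mul_assoc]

lemma conj_zero (γ : Γ) : conj γ (0 : MonoidAlgebra k Γ) = 0 := by
  unfold conj
  rw [mul_zero, zero_mul]

lemma conj_sum {X : Type} [Fintype X] (γ : Γ) (r : X → MonoidAlgebra k Γ) :
    conj γ (∑ x, r x) = ∑ x, conj γ (r x) := by
  unfold conj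
  rw [Finset.mul_sum, Finset.sum_mul]

/-- elements fixed by all conjugations are central -/
lemma central_of (r : MonoidAlgebra k Γ) (h : ∀ γ, conj γ r = r) (x : MonoidAlgebra k Γ) :
    r * x = x * r := by
  have h1 : ∀ γ : Γ, MonoidAlgebra.single γ 1 * r = r * MonoidAlgebra.single γ 1 := by
    intro γ
    have h2 := congrArg (fun z => z * MonoidAlgebra.single γ 1) (h γ)
    unfold conj at h2
    rw [mul_assoc, inv_single, mul_one] at h2
    exact h2
  induction x using MonoidAlgebra.induction_linear with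
  | zero => rw [mul_zero, zero_mul]
  | add x y hx hy => rw [mul_add, add_mul, hx, hy]
  | single m a =>
    have e1 : (MonoidAlgebra.single m a : MonoidAlgebra k Γ) = a • MonoidAlgebra.single m 1 := by
      rw [MonoidAlgebra.smul_single, smul_eq_mul, mul_one]
    rw [e1, mul_smul_comm, smul_mul_assoc, h1]

end conj

theorem p_conj : P_CONJ := by
  intro hE hPHI hCOEF Λ V G Γ _ _ _ _ _ _ _ D b hb hbc
  classical
  obtain ⟨e1, e2, e3, e4, e5⟩ := hE D
  obtain ⟨-, f2, -, -, -⟩ := hPHI hE hCOEF D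
  have := Fintype.ofFinite (Γ ⧸ D.I)
  have hff : D.f b * D.f b = D.f b := by rw [f2, hb.eq]
  have hfe : D.f b * D.e = D.f b := by
    unfold Dat.f
    rw [mul_assoc, e1.eq]
  have hef : D.e * D.f b = D.f b := by
    unfold Dat.f
    rw [e4 b, ← mul_assoc, e1.eq]
  -- (1)
  have hG : ∀ g, conj (D.iG g) (D.f b) = D.f b := by
    intro g
    have s1 : (MonoidAlgebra.single (D.iG g) 1 : MonoidAlgebra Λ Γ) =
        D.ι (MonoidAlgebra.single g 1) := by
      unfold Dat.ι
      simp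
    have s2 : (MonoidAlgebra.single (D.iG g)⁻¹ 1 : MonoidAlgebra Λ Γ) =
        D.ι (MonoidAlgebra.single g⁻¹ 1) := by
      unfold Dat.ι
      simp
    unfold conj Dat.f
    rw [s1, s2]
    calc D.ι (MonoidAlgebra.single g 1) * (D.ι b * D.e) * D.ι (MonoidAlgebra.single g⁻¹ 1)
        = D.ι (MonoidAlgebra.single g 1) * D.ι b * (D.e * D.ι (MonoidAlgebra.single g⁻¹ 1)) := by
          simp only [mul_assoc]
      _ = D.ι (MonoidAlgebra.single g 1) * D.ι b * (D.ι (MonoidAlgebra.single g⁻¹ 1) * D.e) := by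
          rw [e4]
      _ = D.ι (MonoidAlgebra.single g 1 * b * MonoidAlgebra.single g⁻¹ 1) * D.e := by
          rw [map_mul, map_mul]
          simp only [mul_assoc]
      _ = D.ι b * D.e := by
          rw [← hbc, mul_assoc, single_inv, mul_one]
  have hV : ∀ v, conj (D.iV v) (D.f b) = D.f b := by
    intro v
    unfold conj
    have s1 : MonoidAlgebra.single (D.iV v) 1 * D.f b = D.θ v • D.f b := by
      rw [← hef, ← mul_assoc, e2, smul_mul_assoc]
    have s2 : D.f b * MonoidAlgebra.single (D.iV v)⁻¹ 1 = D.θ v⁻¹ • D.f b := by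
      rw [← hfe, mul_assoc, ← map_inv, e3, mul_smul_comm]
    rw [s1, smul_mul_assoc, s2, smul_smul, ← map_mul, mul_inv_cancel, map_one, one_smul]
  have h1 : ∀ γ ∈ D.I, conj γ (D.f b) = D.f b := by
    rintro γ ⟨v, g, rfl⟩
    rw [← conj_conj, hG, hV]
  -- (2)
  have hid : ∀ (γ : Γ) (r : MonoidAlgebra Λ Γ), conj (γ * γ⁻¹) r = r := by
    intro γ r
    unfold conj
    rw [mul_inv_cancel, inv_one]
    have e : (MonoidAlgebra.single (1 : Γ) (1 : Λ)) = (1 : MonoidAlgebra Λ Γ) := rfl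
    rw [e, one_mul, mul_one]
  have hsplit : ∀ (γ δ : Γ) (r : MonoidAlgebra Λ Γ), conj δ r = conj γ (conj (γ⁻¹ * δ) r) := by
    intro γ δ r
    rw [conj_conj, mul_inv_cancel_left]
  have h2 : ∀ γ δ, γ⁻¹ * δ ∉ D.I → conj γ (D.f b) * conj δ (D.f b) = 0 := by
    intro γ δ h
    rw [hsplit γ δ, ← conj_mul]
    have h3 : D.f b * conj (γ⁻¹ * δ) (D.f b) = 0 := by
      calc D.f b * conj (γ⁻¹ * δ) (D.f b)
          = (D.f b * D.e) * conj (γ⁻¹ * δ) (D.e * D.f b) := by rw [hfe, hef]
        _ = D.f b * (D.e * conj (γ⁻¹ * δ) D.e) * conj (γ⁻¹ * δ) (D.f b) := by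
            rw [conj_mul]
            simp only [mul_assoc]
        _ = 0 := by rw [e5 _ h, mul_zero, zero_mul]
    rw [h3, conj_zero]
  -- (3)
  have h3 : ∀ γ δ, γ⁻¹ * δ ∈ D.I → conj γ (D.f b) = conj δ (D.f b) := by
    intro γ δ h
    rw [hsplit γ δ, h1 _ h]
  have hF := D.F_eq b
  -- (4)
  have h4 : ∀ γ, conj γ (D.F b) = D.F b := by
    intro γ
    rw [hF, conj_sum]
    refine Fintype.sum_bijective (fun x : Γ ⧸ D.I => γ • x) (MulAction.bijective γ) _ _ ?_
    intro x
    rw [conj_conj]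
    apply h3
    rw [← QuotientGroup.eq, QuotientGroup.out_eq' (γ • x)]
    have e : ((γ * x.out : Γ) : Γ ⧸ D.I) = γ • ((x.out : Γ) : Γ ⧸ D.I) := rfl
    rw [e, QuotientGroup.out_eq']
  have hout : ∀ x y : Γ ⧸ D.I, x ≠ y → conj y.out (D.f b) * conj x.out (D.f b) = 0 := by
    intro x y hxy
    apply h2
    intro h
    rw [← QuotientGroup.eq, QuotientGroup.out_eq', QuotientGroup.out_eq'] at h
    exact hxy h.symm
  have h6' : ∀ x : Γ ⧸ D.I, D.F b * conj x.out (D.f b) = conj x.out (D.f b) := by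
    intro x
    rw [hF, Finset.sum_mul, Finset.sum_eq_single x]
    · rw [← conj_mul, hff]
    · intro y _ hyx
      exact hout x y hyx.symm
    · intro h
      exact absurd (Finset.mem_univ x) h
  have h6 : ∀ γ, D.F b * conj γ (D.f b) = conj γ (D.f b) := by
    intro γ
    have e : conj γ (D.f b) = conj ((γ : Γ ⧸ D.I)).out (D.f b) := by
      apply h3
      rw [← QuotientGroup.eq, QuotientGroup.out_eq']
    rw [e]
    exact h6' _
  refine ⟨h1, h2, h3, central_of _ h4, ?_, h6⟩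
  show D.F b * D.F b = D.F b
  have h7 : D.F b * ∑ x : Γ ⧸ D.I, conj x.out (D.f b) = ∑ x : Γ ⧸ D.I, conj x.out (D.f b) := by
    rw [Finset.mul_sum]
    exact Finset.sum_congr rfl fun x _ => h6' x
  rw [← hF] at h7
  exact h7

end Pool.Agent.W2helper49.BD
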